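import Pool.Agent.J6H30.PV.TupleFinal

/-!
# Joint digits of the values of several polynomials with algebraic coefficients

Let `f_1, …, f_m` be real polynomials in `r` variables with algebraic coefficients satisfying Weyl's
condition: every nontrivial integral combination `c_1 f_1 + … + c_m f_m` has an irrational non-constant
coefficient. For almost all integral points `k` of a box with sides at least `exp(ε N)` the tuple
`(f_1(k), …, f_m(k))` looks like a random tuple up to the `N`-th digit: its digit matrices, the rows of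
which may be taken in different bases and at different places, have the joint discrepancy `√n N ^ δ` of
random matrices in all windows of length `n ≤ N` (the case `T = ∅`, `D₀ = 1` below). Taking for
`[α_j, β_j)` the intervals of the numbers with a given word of digits one obtains the frequencies of all
digit matrices of all widths.
Moreover, if the top irrational coefficients of the combinations belong to monomials divisible by all
the variables in a set `T`, then the box may be replaced by an arbitrary cylinder intersection of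
density at least `exp(-κ N)` and arbitrary functions which do not depend on the `i`-th variable,
`i ∈ T`, may be added to the `f_j`. For instance: let `1, x_1, …, x_m` be real algebraic numbers,
linearly independent over `ℚ`, let `𝒜` and `ℬ` be arbitrary sets of integers of density at least
`exp(-κ N)` in intervals of length at least `exp(ε N)`, and let `γ_j`, `γ'_j` be arbitrary real
functions; then almost all the tuples `(x_j a b + γ_j(a) + γ'_j(b))_j`, `a ∈ 𝒜`, `b ∈ ℬ`, have this
property.

Proof. A criterion (`PV.CritM`): by the inequality of Erdős, Turán and Koksma (`PV.ETK`) and moments of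
high order it suffices to bound the exponential sums with the phases `∑_j h_j b_j^(s_j) (∑_t ± b_j^(p_t))
z_j(k)`, which are combinations of the `f_j` with integral coefficients of size `exp(C N)`. They are
estimated by box norms and Weyl differencing (`PV.Rough`, the method of the hand-in `AllBasesJointly` on
`MP_f2f914_nt`). The monomial to be used, and the direction of the lines in which the sum is irrational,
depend on the combination; the directions are taken from a finite grid (combinatorial Nullstellensatz),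
the rational coefficients of higher degree have bounded denominators, and the subspace theorem for
several algebraic numbers and several bases (`Pool.Agent.Y951.TU.dioph`) is applied to the values of the
`f_j` at the points of the grid.
-/

set_option autoImplicit false

namespace Pool.Agent.Results.MP_c8ecb2_nt.JointPolynomialDigits

open Finset

/-- For all bases `2 ≤ b j ≤ B`, all places `s j ≤ N`, all `n ≤ N` and all boxes
`∏ [α j, β j) ⊆ [0, 1) ^ m`: the number of `1 ≤ i ≤ n` such that the fractional part of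
`z j * b j ^ (s j + i)` lies in `[α j, β j)` for all `j` differs from `n ∏ (β j - α j)` by at most
`E √n`. -/
def JointlyRandom {m : ℕ} (B N : ℕ) (E : ℝ) (z : Fin m → ℝ) : Prop :=
  ∀ b s : Fin m → ℕ, (∀ j, 2 ≤ b j ∧ b j ≤ B) → (∀ j, s j ≤ N) → ∀ n : ℕ, n ≤ N →
    ∀ α β : Fin m → ℝ, (∀ j, 0 ≤ α j ∧ α j < β j ∧ β j ≤ 1) →
    |(({i : ℕ | 1 ≤ i ∧ i ≤ n ∧ ∀ j, α j ≤ Int.fract (z j * (b j : ℝ) ^ (s j + i)) ∧
      Int.fract (z j * (b j : ℝ) ^ (s j + i)) < β j}.ncard : ℕ) : ℝ) - n * ∏ j, (β j - α j)| ≤
        E * Real.sqrt n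

/-- the intersection of the sets `Z i`, `i ∈ T`, in the box `∏ [J i, J i + M i)` -/
def Cylinder {r : ℕ} (J : Fin r → ℤ) (M : Fin r → ℕ) (T : Finset (Fin r))
    (Z : Fin r → Set (Fin r → ℤ)) : Set (Fin r → ℤ) :=
  {k | (∀ i, J i ≤ k i ∧ k i < J i + M i) ∧ ∀ i ∈ T, k ∈ Z i}

/-- Let `f 1, …, f m` be real polynomials in `r` variables, `D₀ ≥ 1` and `T` a (possibly empty) set of
variables. Suppose that the coefficients of degree at least `D₀` of the `f j` are algebraic and that for
every nonzero integral vector `c`, among the monomials of the largest degree which have an irrational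
coefficient in `∑ c j f j`, there is one of degree at least `D₀` which is divisible by all the variables
in `T` (for `D₀ = 1`, `T = ∅`: every nontrivial integral combination of the `f j` has an irrational
non-constant coefficient). Let `B`, `A` and `ε, δ > 0` be given. There is `κ > 0` such that for all
large `N`, all real polynomials `g j` of total degree less than `D₀`, all boxes `∏ [J i, J i + M i)`
with `M i ≥ exp(ε N)`, all sets `Z i ⊆ ℤ ^ r`, `i ∈ T`, not depending on the `i`-th coordinate and all
real functions `γ j i` on `ℤ ^ r`, `j ≤ m`, `i ∈ T`, not depending on the `i`-th coordinate: if the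
intersection `Ω` of the box with the sets `Z i` contains at least `exp(-κ N) ∏ M i` points (for instance
if `Ω` is the box), then for all but at most `|Ω| / N ^ A` of the points `k` of `Ω` the tuple
`z j = f j (k) + g j (k) + ∑_{i ∈ T} γ j i k` is `JointlyRandom B N (N ^ δ)`. -/
theorem result (m r D₀ : ℕ) (hD : 1 ≤ D₀) (T : Finset (Fin r)) (f : Fin m → MvPolynomial (Fin r) ℝ)
    (halg : ∀ j, ∀ μ : Fin r →₀ ℕ, D₀ ≤ μ.degree → IsAlgebraic ℚ ((f j).coeff μ))
    (hind : ∀ c : Fin m → ℤ, c ≠ 0 → ∃ μ : Fin r →₀ ℕ, D₀ ≤ μ.degree ∧ T ⊆ μ.support ∧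
      Irrational (∑ j, (c j : ℝ) * (f j).coeff μ) ∧
      ∀ ν : Fin r →₀ ℕ, μ.degree < ν.degree → ¬ Irrational (∑ j, (c j : ℝ) * (f j).coeff ν))
    (B A : ℕ) (ε δ : ℝ) (hε : 0 < ε) (hδ : 0 < δ) :
    ∃ κ : ℝ, 0 < κ ∧ ∃ N₀ : ℕ, ∀ N : ℕ, N₀ ≤ N →
      ∀ g : Fin m → MvPolynomial (Fin r) ℝ, (∀ j, (g j).totalDegree < D₀) →
      ∀ (J : Fin r → ℤ) (M : Fin r → ℕ), (∀ i, Real.exp (ε * N) ≤ M i) →
      ∀ Z : Fin r → Set (Fin r → ℤ), (∀ i ∈ T, ∀ k z, Function.update k i z ∈ Z i ↔ k ∈ Z i) →
      ∀ γ : Fin m → Fin r → (Fin r → ℤ) → ℝ,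
        (∀ j, ∀ i ∈ T, ∀ k z, γ j i (Function.update k i z) = γ j i k) →
      Real.exp (-(κ * N)) * ∏ i, (M i : ℝ) ≤ (((Cylinder J M T Z).ncard : ℕ) : ℝ) →
      (({k | k ∈ Cylinder J M T Z ∧ ¬ JointlyRandom B N ((N : ℝ) ^ δ) (fun j =>
        MvPolynomial.eval (fun i => (k i : ℝ)) (f j) + MvPolynomial.eval (fun i => (k i : ℝ)) (g j) +
          ∑ i ∈ T, γ j i k)}.ncard : ℕ) : ℝ) ≤
        (((Cylinder J M T Z).ncard : ℕ) : ℝ) / (N : ℝ) ^ A := by
  classical
  have hdef : ∀ (N : ℕ) (E : ℝ) (z : Fin m → ℝ), JointlyRandom B N E z ↔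
      Pool.Agent.J6H30.PV.GoodM B N E z := by
    intro N E z
    unfold JointlyRandom Pool.Agent.J6H30.PV.GoodM
    have hset : ∀ (b s : Fin m → ℕ) (n : ℕ) (α β : Fin m → ℝ),
        {i : ℕ | 1 ≤ i ∧ i ≤ n ∧ ∀ j, α j ≤ Int.fract (z j * (b j : ℝ) ^ (s j + i)) ∧
          Int.fract (z j * (b j : ℝ) ^ (s j + i)) < β j} =
        (((Icc 1 n).filter (fun i : ℕ => ∀ j, α j ≤ Int.fract (z j * (b j : ℝ) ^ (s j + i)) ∧
          Int.fract (z j * (b j : ℝ) ^ (s j + i)) < β j) : Finset ℕ) : Set ℕ) := by
      intro b s n α β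
      ext i
      simp [and_assoc]
    constructor
    · intro h b s hb hbB hs n hn α β h0 h1 h2
      have := h b s (fun j => ⟨hb j, hbB j⟩) hs n hn α β (fun j => ⟨h0 j, h1 j, h2 j⟩)
      rw [hset, Set.ncard_coe_finset, mul_comm (n : ℝ)] at this
      exact this
    · intro h b s hb hs n hn α β hab
      have := h b s (fun j => (hb j).1) (fun j => (hb j).2) hs n hn α β (fun j => (hab j).1)
        (fun j => (hab j).2.1) (fun j => (hab j).2.2)
      rw [hset, Set.ncard_coe_finset, mul_comm (n : ℝ)]
      exact this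
  obtain ⟨κ, hκ, N₀, h⟩ := Pool.Agent.J6H30.PV.tuple_main m r D₀ hD T f halg hind B ε δ hε hδ A
  refine ⟨κ, hκ, max N₀ 1, fun N hN g hg J M hM Z hZ γ hγ hdens => ?_⟩
  have hN1 : (1 : ℝ) ≤ N := by exact_mod_cast (le_max_right _ _).trans hN
  set Ω : Finset (Fin r → ℤ) :=
    (Pool.Agent.J6H30.PV.box J M).filter (fun k => ∀ i ∈ T, k ∈ Z i) with hΩ
  have hΩe : ∀ k, k ∈ Ω ↔ k ∈ Pool.Agent.J6H30.PV.box J M ∧ ∀ i ∈ T, k ∈ Z i := by
    intro k
    rw [hΩ, mem_filter]
  have hbox : ∀ k, k ∈ Pool.Agent.J6H30.PV.box J M ↔ ∀ i, J i ≤ k i ∧ k i < J i + M i := by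
    intro k
    unfold Pool.Agent.J6H30.PV.box
    rw [Fintype.mem_piFinset]
    exact forall_congr' fun i => mem_Ico
  have hC : Cylinder J M T Z = (Ω : Set (Fin r → ℤ)) := by
    ext k
    rw [mem_coe, hΩe, hbox]
    rfl
  rw [hC, Set.ncard_coe_finset] at hdens ⊢
  have h1 := h N ((le_max_left _ _).trans hN) g hg J M hM Z hZ γ hγ Ω hΩe hdens
  rw [le_div_iff₀ (by positivity)]
  refine le_trans (le_of_eq ?_) h1
  congr 3
  ext k
  rw [Set.mem_ofPred_eq, Set.mem_ofPred_eq, hdef, mem_coe]

end Pool.Agent.Results.MP_c8ecb2_nt.JointPolynomialDigits
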