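import Pool.Agent.J6H36.RB.Blk3

/-!
# Joint digits of tuples of algebraic numbers in almost all integer bases

Let `α_1, …, α_r` be real algebraic numbers such that `1, α_1, …, α_r` are linearly independent over
the rational numbers.  The base is `b = f(n)` for a fixed non-constant integer polynomial `f` (for
instance `b = n`), where `n` runs through an arbitrary window `(N, N + L]`; all bounds are uniform in
the position `N` of the window.  There is an absolute constant `δ > 0` such that for almost all `n` the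
joint expansions behave up to the depth `(log L) ^ δ` as those of `r` independent random numbers:

* the digits of the numbers (each of them up to its `M`-quantile) are, up to `exp (-(log L) ^ δ)` in
  total variation, independent and uniformly distributed;
* for almost all `n` every `r × m` matrix of digit classes stands at the right number of places
  `i ≤ K`, up to `K ^ (1/2 + ε)`, for all `K` between a constant and `(log L) ^ δ`;
* for almost all `n` the points `(α_1 b ^ k, …, α_r b ^ k)`, `k ≤ K`, have nearly optimal discrepancy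
  modulo one.

Method: Vinogradov's mean value theorem with explicit constants and the double Hoelder bound for the
bilinear sum (starting library, project VK), used with the leading coefficient only, which is an
integral linear form in the `α_j`, so that the generalization of Liouville's inequality to linear forms
controls it at every position of the window; comparison of distributions on products of intervals
(starting library, `Y951.TU`); a majorant argument for the digits; concentration for random words.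
-/

set_option autoImplicit false

namespace Pool.Agent.Results.MP_c8ecb2_nt.RandomBaseMatrices

open Polynomial

/-- the `k`-th digit behind the point of `x` in base `b` (`k ≥ 1`) -/
noncomputable def digit (b k : ℕ) (x : ℝ) : ℕ := ⌊(b : ℝ) * Int.fract ((b : ℝ) ^ (k - 1) * x)⌋₊

/-- the base `f(n)` -/
def base (f : ℤ[X]) (n : ℕ) : ℕ := (f.eval (n : ℤ)).toNat

/-- There is an absolute constant `δ > 0` such that the following holds for all real algebraic numbers
`α_1, …, α_r` for which `1, α_1, …, α_r` are linearly independent over `ℚ`, and for every non-constant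
integer polynomial `f`.  In (1), (2) and (3) let `L` be large, and let `N` be such that the bases
`b = f(n)`, `N < n ≤ N + L`, are positive.

(1) Let `K ≤ (log L) ^ δ` and `1 ≤ M ≤ exp ((log L) ^ δ)`.  For every set `W` of `r × K` matrices with
entries `0, …, M - 1`, the number of the `n ∈ (N, N + L]` for which the matrix of the `⌊M a_{j,k} / b⌋`,
where `a_{j,k}`, `2 ≤ k ≤ K + 1`, is the `k`-th digit of `α_j` in base `b = f(n)`, belongs to `W`, differs
from `L |W| / M ^ (r K)` by at most `L exp (-(log L) ^ δ)`.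

(2) Let `m, M ≥ 1` and `ε, η > 0`.  There is `K₁` such that for all large `L` and all `N` all but at most
`η L` of the `n ∈ (N, N + L]` have the following property: for all `K₁ ≤ K ≤ (log L) ^ δ` and every
`r × m` matrix `D` with entries `0, …, M - 1`, the number of the places `1 ≤ i ≤ K` such that
`⌊M a_{j,i+h} / b⌋ = D_{j,h}` for all `1 ≤ j ≤ r` and `0 ≤ h < m` differs from `K / M ^ (r m)` by at most
`K ^ (1/2 + ε)`.

(3) Let `ε, η > 0`.  There is `K₁` such that for all large `L` and all `N` all but at most `η L` of the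
`n ∈ (N, N + L]` have the following property: for all `K₁ ≤ K ≤ (log L) ^ δ` and all intervals
`[u_j, v_j)` in `[0, 1]` the number of the `1 ≤ k ≤ K` such that the fractional part of `α_j b ^ k` is in
`[u_j, v_j)` for all `j` differs from `K ∏ (v_j - u_j)` by at most `K ^ (1/2 + ε)`. -/
theorem result : ∃ δ : ℝ, 0 < δ ∧ ∀ (r : ℕ) (α : Fin r → ℝ), (∀ j, IsAlgebraic ℚ (α j)) →
    LinearIndependent ℚ (Matrix.vecCons (1 : ℝ) α) → ∀ f : ℤ[X], 1 ≤ f.natDegree →
    (∃ L₀ : ℕ, ∀ L : ℕ, L₀ ≤ L →
      ∀ N : ℕ, (∀ n : ℕ, N < n → n ≤ N + L → 0 < f.eval (n : ℤ)) →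
      ∀ K M : ℕ, (K : ℝ) ≤ (Real.log L) ^ δ → 1 ≤ M → (M : ℝ) ≤ Real.exp ((Real.log L) ^ δ) →
      ∀ W : Finset (Fin r → Fin K → Fin M),
      |({n : ℕ | N < n ∧ n ≤ N + L ∧ ∃ w ∈ W, ∀ (j : Fin r) (k : Fin K),
          M * digit (base f n) ((k : ℕ) + 2) (α j) / base f n = (w j k : ℕ)}.ncard : ℝ) -
        L * (W.card / (M : ℝ) ^ (r * K))| ≤ L * Real.exp (-((Real.log L) ^ δ))) ∧
    (∀ m M : ℕ, 1 ≤ m → 1 ≤ M → ∀ ε η : ℝ, 0 < ε → 0 < η → ∃ K₁ L₀ : ℕ, ∀ L : ℕ, L₀ ≤ L →
      ∀ N : ℕ, (∀ n : ℕ, N < n → n ≤ N + L → 0 < f.eval (n : ℤ)) →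
      ({n : ℕ | N < n ∧ n ≤ N + L ∧ ¬ ∀ K : ℕ, K₁ ≤ K → (K : ℝ) ≤ (Real.log L) ^ δ →
        ∀ D : Fin r → Fin m → Fin M,
        |({i : ℕ | 1 ≤ i ∧ i ≤ K ∧ ∀ (j : Fin r) (h : Fin m),
            M * digit (base f n) (i + h) (α j) / base f n = (D j h : ℕ)}.ncard : ℝ) -
            K * (1 / (M : ℝ) ^ (r * m))| ≤ (K : ℝ) ^ (1 / 2 + ε)}.ncard : ℝ) ≤ η * L) ∧
    (∀ ε η : ℝ, 0 < ε → 0 < η → ∃ K₁ L₀ : ℕ, ∀ L : ℕ, L₀ ≤ L →
      ∀ N : ℕ, (∀ n : ℕ, N < n → n ≤ N + L → 0 < f.eval (n : ℤ)) →
      ({n : ℕ | N < n ∧ n ≤ N + L ∧ ¬ ∀ K : ℕ, K₁ ≤ K → (K : ℝ) ≤ (Real.log L) ^ δ →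
        ∀ u v : Fin r → ℝ, (∀ j, 0 ≤ u j ∧ u j ≤ v j ∧ v j ≤ 1) →
        |({k : ℕ | 1 ≤ k ∧ k ≤ K ∧ ∀ j, u j ≤ Int.fract (α j * (base f n : ℝ) ^ k) ∧
            Int.fract (α j * (base f n : ℝ) ^ k) < v j}.ncard : ℝ) - K * ∏ j, (v j - u j)| ≤
          (K : ℝ) ^ (1 / 2 + ε)}.ncard : ℝ) ≤ η * L) := by
  obtain ⟨δ, hδ0, hδ⟩ := Pool.Agent.J6H36.RB.blocks_all
  refine ⟨δ, hδ0, ?_⟩
  intro r α halg hlin f hf
  have hind : ∀ c : Fin r → ℤ, c ≠ 0 → Irrational (∑ j, (c j : ℝ) * α j) := by
    intro c hc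
    rintro ⟨q, hq⟩
    apply hc
    rw [Fintype.linearIndependent_iff] at hlin
    have h1 := hlin (Matrix.vecCons (-q) (fun j => (c j : ℚ))) (by
      rw [Fin.sum_univ_succ]
      simp only [Matrix.cons_val_zero, Matrix.cons_val_succ]
      have h2 : ∀ j, ((c j : ℚ) • α j : ℝ) = (c j : ℝ) * α j := fun j => by
        rw [Rat.smul_def]
        push_cast
        rfl
      rw [Finset.sum_congr rfl fun j _ => h2 j, ← hq, Rat.smul_def]
      push_cast
      ring)
    funext j
    have h3 := h1 j.succ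
    simp only [Matrix.cons_val_succ] at h3
    exact_mod_cast h3
  obtain ⟨A, c0, hA, hc0, htyp⟩ := Pool.Agent.J6H36.RB.typ_of_alg α halg hind
  obtain ⟨⟨L0, h1⟩, h2, h3⟩ := hδ r 1 α A c0 hA hc0 htyp (fun _ => f)
    (Pool.Agent.J6H36.RB.indep_one f hf)
  refine ⟨?_, ?_, ?_⟩
  · refine ⟨L0, fun L hL N hpos K M hK hM hMX W => ?_⟩
    classical
    have h3 := h1 L hL N (fun n a b _ => hpos n a b) K M hK hM hMX
      (W.image fun w => fun _ k j => w j k)
    have hc : (W.image fun w => fun (_ : Fin 1) (k : Fin K) (j : Fin r) => w j k).card = W.card := by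
      refine Finset.card_image_of_injective _ fun w w' h => ?_
      funext j k
      exact congrFun (congrFun (congrFun h 0) k) j
    rw [hc, one_mul, mul_comm K r] at h3
    refine le_trans (le_of_eq ?_) h3
    congr 3
    congr 1
    ext n
    refine and_congr_right fun _ => and_congr_right fun _ => ?_
    constructor
    · rintro ⟨w, hw, h⟩
      exact ⟨_, Finset.mem_image_of_mem _ hw, fun _ k j => h j k⟩
    · rintro ⟨w', hw', h⟩
      obtain ⟨w, hw, rfl⟩ := Finset.mem_image.1 hw'
      exact ⟨w, hw, fun j k => h 0 k j⟩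
  · intro m M hm hM ε η hε hη
    obtain ⟨K1, L0, h4⟩ := h2 m M hm hM ε η hε hη
    refine ⟨K1, L0, fun L hL N hpos => le_trans ?_ (h4 L hL N (fun n a b _ => hpos n a b))⟩
    rw [Nat.cast_le]
    refine Set.ncard_le_ncard ?_ ((Set.finite_Ioc N (N + L)).subset fun n hn => ⟨hn.1, hn.2.1⟩)
    rintro n ⟨hn1, hn2, hn3⟩
    refine ⟨hn1, hn2, fun hcon => hn3 ?_⟩
    intro K hK1 hK2 D
    have h5 := hcon K hK1 hK2 (fun _ j h => D j h)
    rw [one_mul] at h5
    refine le_trans (le_of_eq ?_) h5
    congr 3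
    congr 1
    ext k
    refine and_congr_right fun _ => and_congr_right fun _ => ?_
    constructor
    · intro h _ j h'
      exact h j h'
    · intro h j h'
      exact h 0 j h'
  · intro ε η hε hη
    obtain ⟨K1, L0, h4⟩ := h3 ε η hε hη
    refine ⟨K1, L0, fun L hL N hpos => le_trans ?_ (h4 L hL N (fun n a b _ => hpos n a b))⟩
    rw [Nat.cast_le]
    refine Set.ncard_le_ncard ?_ ((Set.finite_Ioc N (N + L)).subset fun n hn => ⟨hn.1, hn.2.1⟩)
    rintro n ⟨hn1, hn2, hn3⟩
    refine ⟨hn1, hn2, fun hcon => hn3 ?_⟩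
    intro K hK1 hK2 u v huv
    have h5 := hcon K hK1 hK2 (fun _ j => u j) (fun _ j => v j) (fun _ j => huv j)
    rw [Fin.prod_univ_one] at h5
    refine le_trans (le_of_eq ?_) h5
    congr 3
    congr 1
    ext k
    refine and_congr_right fun _ => and_congr_right fun _ => ?_
    constructor
    · intro h _ j
      exact h j
    · intro h j
      exact h 0 j

end Pool.Agent.Results.MP_c8ecb2_nt.RandomBaseMatrices
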