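import Pool.Agent.J6H93.Fam.Cyc3

/-!
# The real and imaginary parts of roots of unity are simultaneously normal up to
`(log n) ^ (3 / 2 - ε)` digits

Let `δ, β > 0` with `2 δ + β < 1`. For all `D`, `r`, `B`, `w`, `ε > 0` and all large `n` (no average over
`n` is taken), for all primitive `n`-th roots of unity `ζ`, except for a proportion
`exp (-(log n) ^ β)`, the following holds: ALL tuples `(y₁, …, y_r)` of real algebraic numbers
`y_j = (Re u_j(ζ) + Im v_j(ζ)) / m_j`, where `u_j` and `v_j` are integral polynomials of degree at most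
`D` and `m_j` and the coefficients are at most `exp ((log n) ^ β)`, such that `1, y₁, …, y_r` are
linearly independent over `ℚ`, have in every base `b ≤ B` all `r × k` digit matrices, `k ≤ w`, with the
right frequency `b ^ (-k r)` in every window of the first `(log n) ^ (1 + δ)` digits, up to
`ε N + (3 / 4) log n`, where `N` is the length of the window. The same holds for all `n`-th roots of
unity.

Examples are the tuples `(Re ζ, Im ζ, Re ζ ^ 2, Im ζ ^ 2, …, Re ζ ^ D, Im ζ ^ D)`, in particular the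
points `(cos (2π a / n), sin (2π a / n))` of finite order on the circle.

Proof. The Fourier coefficients of the joint distribution of the digits are sums of
`exp (2π i θ F(a / n))` over `a` modulo `n`, where `F` is a nonconstant real trigonometric polynomial
with rational coefficients. They are estimated with Vinogradov's method (bilinear shifts and the mean
value theorem), for all `θ` between `√n` and `exp ((log n) ^ (1 + δ))`; the derivatives of `F` are
controlled outside of small neighbourhoods of the zeros of the algebraic polynomials which represent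
them. A large deviation argument gives all windows with an exceptional proportion
`exp (-(log n) ^ β)`, which is smaller than the inverse of the number of the tuples.
-/

set_option autoImplicit false

namespace Pool.Agent.Results.MP_c8ecb2_nt.RootsOfUnity

open Polynomial

/-- the word of the `k` digits in base `b` of `y` which follow the first `n` digits after the point,
read as an integer between `0` and `b ^ k - 1` -/
noncomputable def word (b k n : ℕ) (y : ℝ) : ℕ :=
  ⌊(b : ℝ) ^ k * Int.fract ((b : ℝ) ^ n * y)⌋₊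

/-- in every base `2 ≤ b ≤ B` the number of occurrences of every `r × k` digit matrix, `1 ≤ k ≤ w`
(row `j` is the word `D j` of `y j`), at the `N` places `s, …, s + N - 1`, for every window with
`s + N ≤ L`, differs from `N / b ^ (k r)` by at most `ε N + E` -/
def NormalIn {r : ℕ} (B w : ℕ) (L ε E : ℝ) (y : Fin r → ℝ) : Prop :=
  ∀ (b k s N : ℕ) (D : Fin r → ℕ), 2 ≤ b → b ≤ B → 1 ≤ k → k ≤ w → (∀ j, D j < b ^ k) →
    (s : ℝ) + N ≤ L →
    |(({i : ℕ | i < N ∧ ∀ j, word b k (s + i) (y j) = D j}.ncard : ℕ) : ℝ) -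
      N / ((b : ℝ) ^ k) ^ r| ≤ ε * N + E

/-- the integral polynomials `u j`, `v j` have degree at most `D`, and `m j ≥ 1` and the absolute
values of the coefficients are at most `V` -/
def Small {r : ℕ} (D : ℕ) (V : ℝ) (u v : Fin r → ℤ[X]) (m : Fin r → ℕ) : Prop :=
  ∀ j, (u j).natDegree ≤ D ∧ (v j).natDegree ≤ D ∧
    (∀ i, |((u j).coeff i : ℝ)| ≤ V ∧ |((v j).coeff i : ℝ)| ≤ V) ∧ 1 ≤ m j ∧ (m j : ℝ) ≤ V

/-- the numbers `(Re u_j(ζ) + Im v_j(ζ)) / m_j` -/
noncomputable def tup {r : ℕ} (u v : Fin r → ℤ[X]) (m : Fin r → ℕ) (ζ : ℂ) : Fin r → ℝ :=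
  fun j => ((aeval ζ (u j)).re + (aeval ζ (v j)).im) / m j

/-- linear independence excludes constant combinations of the polynomials -/
lemma indep {r : ℕ} {u v : Fin r → ℤ[X]} {m : Fin r → ℕ} {ζ : ℂ} (hm : ∀ j, 1 ≤ m j)
    (h : LinearIndependent ℚ (Fin.cons (1 : ℝ) (tup u v m ζ) : Fin (r + 1) → ℝ))
    (c : Fin r → ℤ) (hc : c ≠ 0) :
    1 ≤ (∑ j, C (c j) * u j).natDegree ∨ 1 ≤ (∑ j, C (c j) * v j).natDegree := by
  by_contra hcon
  push Not at hcon
  obtain ⟨h1, h2⟩ := hcon
  have hu := eq_C_of_natDegree_le_zero (by omega : (∑ j, C (c j) * u j).natDegree ≤ 0)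
  have hv := eq_C_of_natDegree_le_zero (by omega : (∑ j, C (c j) * v j).natDegree ≤ 0)
  obtain ⟨a, ha⟩ : ∃ a : ℤ, a = (∑ j, C (c j) * u j).coeff 0 := ⟨_, rfl⟩
  rw [← ha] at hu
  have hu2 : ∑ j, (c j : ℂ) * aeval ζ (u j) = (a : ℂ) := by
    have h3 := congrArg (aeval ζ) hu
    rw [map_sum, aeval_C] at h3
    simp only [map_mul, aeval_C] at h3
    simpa using h3
  have hv2 : ∑ j, (c j : ℂ) * aeval ζ (v j) = (((∑ j, C (c j) * v j).coeff 0 : ℤ) : ℂ) := by
    have h3 := congrArg (aeval ζ) hv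
    rw [map_sum, aeval_C] at h3
    simp only [map_mul, aeval_C] at h3
    simpa using h3
  have hu3 : ∑ j, (c j : ℝ) * (aeval ζ (u j)).re = (a : ℝ) := by
    have h3 := congrArg Complex.re hu2
    rw [Complex.re_sum] at h3
    simpa using h3
  have hv3 : ∑ j, (c j : ℝ) * (aeval ζ (v j)).im = 0 := by
    have h3 := congrArg Complex.im hv2
    rw [Complex.im_sum] at h3
    simpa using h3
  have hm0 : ∀ j, (m j : ℝ) ≠ 0 := fun j => by exact_mod_cast (by have := hm j; omega : m j ≠ 0)
  rw [Fintype.linearIndependent_iff] at h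
  have h3 := h (Fin.cons (-(a : ℚ)) (fun j => (c j : ℚ) * m j)) (by
    rw [Fin.sum_univ_succ]
    simp only [Fin.cons_zero, Fin.cons_succ, Rat.smul_def]
    have h4 : ∀ j, (((c j : ℚ) * (m j : ℚ) : ℚ) : ℝ) * tup u v m ζ j =
        (c j : ℝ) * (aeval ζ (u j)).re + (c j : ℝ) * (aeval ζ (v j)).im := by
      intro j
      unfold tup
      have := hm0 j
      push_cast
      field_simp
    simp only [h4]
    rw [Finset.sum_add_distrib, hu3, hv3]
    push_cast
    ring)
  apply hc
  funext j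
  have h4 := h3 j.succ
  rw [Fin.cons_succ] at h4
  have h5 : (m j : ℚ) ≠ 0 := by exact_mod_cast (by have := hm j; omega : m j ≠ 0)
  have h6 : (c j : ℚ) = 0 := (mul_eq_zero.1 h4).resolve_right h5
  exact_mod_cast h6

/-- Let `δ, β > 0` with `2 δ + β < 1`. For all `D`, `r ≥ 1`, `B`, `w`, `ε > 0` and all large `n`: for all
`n`-th roots of unity `ζ` with at most `exp (-(log n) ^ β) n` exceptions, and for all primitive `n`-th
roots of unity `ζ` with at most `exp (-(log n) ^ β) φ(n)` exceptions, every tuple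
`y_j = (Re u_j(ζ) + Im v_j(ζ)) / m_j` with `Small D (exp ((log n) ^ β)) u v m` such that
`1, y₁, …, y_r` are linearly independent over `ℚ` satisfies
`NormalIn B w ((log n) ^ (1 + δ)) ε ((3 / 4) log n) y`. -/
theorem result (D r : ℕ) (hr : 1 ≤ r) (δ β : ℝ) (hδ : 0 < δ) (hβ : 0 < β) (hδβ : 2 * δ + β < 1)
    (B w : ℕ) (ε : ℝ) (hε : 0 < ε) : ∃ n₀ : ℕ, ∀ n : ℕ, n₀ ≤ n →
    (({ζ : ℂ | ζ ^ n = 1 ∧ ¬ ∀ (u v : Fin r → ℤ[X]) (m : Fin r → ℕ),
      Small D (Real.exp ((Real.log n) ^ β)) u v m →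
      LinearIndependent ℚ (Fin.cons (1 : ℝ) (tup u v m ζ) : Fin (r + 1) → ℝ) →
      NormalIn B w ((Real.log n) ^ (1 + δ)) ε (3 / 4 * Real.log n) (tup u v m ζ)}.ncard : ℕ) : ℝ) ≤
      Real.exp (-(Real.log n) ^ β) * n ∧
    (({ζ : ℂ | IsPrimitiveRoot ζ n ∧ ¬ ∀ (u v : Fin r → ℤ[X]) (m : Fin r → ℕ),
      Small D (Real.exp ((Real.log n) ^ β)) u v m →
      LinearIndependent ℚ (Fin.cons (1 : ℝ) (tup u v m ζ) : Fin (r + 1) → ℝ) →
      NormalIn B w ((Real.log n) ^ (1 + δ)) ε (3 / 4 * Real.log n) (tup u v m ζ)}.ncard : ℕ) : ℝ) ≤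
      Real.exp (-(Real.log n) ^ β) * n.totient := by
  classical
  obtain ⟨n0, hn0⟩ := Pool.Agent.J6H93.Fam.cyc_roots D r hr δ β hδ hβ hδβ B w ε hε
  refine ⟨n0, fun n hn => ?_⟩
  refine hn0 n hn (fun ζ => ∀ (u v : Fin r → ℤ[X]) (m : Fin r → ℕ),
    Small D (Real.exp ((Real.log n) ^ β)) u v m →
    LinearIndependent ℚ (Fin.cons (1 : ℝ) (tup u v m ζ) : Fin (r + 1) → ℝ) →
    NormalIn B w ((Real.log n) ^ (1 + δ)) ε (3 / 4 * Real.log n) (tup u v m ζ)) ?_
  intro ζ hζ u v m hS hind
  intro b k s N W hb hbB hk hkw hW hsN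
  have hsml : Pool.Agent.J6H93.Fam.SmlC D (Real.exp ((Real.log n) ^ β)) u v m :=
    ⟨fun j => ⟨(hS j).1, (hS j).2.1⟩, fun j => (hS j).2.2.1, fun j => (hS j).2.2.2.1,
      fun j => (hS j).2.2.2.2, fun c hc => indep (fun j => (hS j).2.2.2.1) hind c hc⟩
  have key := hζ b u v m hb hbB hsml k s N W hk hkw hW hsN
  have h7 : {i : ℕ | i < N ∧ ∀ j, word b k (s + i) (tup u v m ζ j) = W j} =
      (((Finset.range N).filter (fun i => ∀ j, Pool.Agent.Y933.KD.wd b k (s + i)
        (Pool.Agent.J6H93.Fam.Fp (u j) (v j) ζ / m j) = W j) : Finset ℕ) : Set ℕ) := by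
    ext i
    simp only [Set.mem_ofPred_eq, Finset.coe_filter, Finset.mem_range]
    rfl
  rw [h7, Set.ncard_coe_finset]
  convert key using 5

end Pool.Agent.Results.MP_c8ecb2_nt.RootsOfUnity
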