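import Pool.Agent.J6H93.Fam.Al5

/-!
# The values of algebraic functions at almost all integers of every short interval are simultaneously
normal up to `(log n) ^ (3 / 2 - ε)` digits

Let `f₁, …, f_r` be real algebraic functions near `+∞` (continuous branches of solutions of
`F(t, X) = 0`, where `F ≠ 0` is a polynomial in two variables with integral coefficients), such that no
nontrivial integral combination of `f₁, …, f_r` is a polynomial in `t` with real coefficients, and let
`η > 0`. There is a constant `A` such that for all `δ, β > 0` with `2 δ + β < 1`, all `s`, `B`, `w`,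
`ε > 0`, all large `u` and ALL intervals `(u, u + l]` with `u ^ η ≤ l ≤ u` the following holds for all
integers `n` in the interval, except at most `l exp (-(log u) ^ β)` of them: ALL tuples
`(y₁, …, y_s)` of elements of the vector space over `ℚ` generated by `1, f₁(n), …, f_r(n)`, of height
at most `exp ((log u) ^ β)` (that is `y_i = (a_i + ∑ H_ij f_j(n)) / m_i` with arbitrary integers `a_i` and
with integers `|H_ij|, m_i ≤ exp ((log u) ^ β)`), such that `1, y₁, …, y_s` are linearly independent over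
`ℚ`, have in every base `b ≤ B` all `s × k` digit matrices, `k ≤ w`, with the right frequency
`b ^ (-k s)` in every window of the first `(log u) ^ (1 + δ)` digits, up to `ε N + A log u`, where `N` is
the length of the window.

Example: `f_j = x ^ j`, `1 ≤ j < d`, where `x = x(t)` is a branch of an equation `F(t, x) = 0` of degree
`d`: then for almost all `n` in every short interval all tuples of elements of small height of the number
field `ℚ(x(n))` which together with `1` are linearly independent are simultaneously normal up to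
`(log n) ^ (3 / 2 - ε)` digits.

Proof. The functions are Puiseux series (the theorem of Newton and Puiseux is proved here for continuous
branches, by Hensel's lemma for analytic families of polynomials, which follows from the inverse function
theorem); their coefficients are algebraic numbers, so the leading coefficient (of an exponent which is
not a natural number) of an integral combination of height `W` is at least `C⁻¹ W ^ (-C)` by Liouville's
inequality for linear forms, where the exponent is bounded from below because a descending chain of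
rational subspaces stabilizes. The functions extend analytically to a half plane, which gives all
derivatives. The sums of `exp (2π i θ ∑ h_j f_j(n))` over a short interval are estimated for all `θ`
between `u ^ A` and `exp ((log u) ^ (1 + δ))` by bilinear shifts `n + v v'` with
`v, v' ≤ u ^ μ`, `μ < η / 2`, and by Vinogradov's mean value theorem.
-/

set_option autoImplicit false

namespace Pool.Agent.Results.MP_c8ecb2_nt.ValuesOfAlgebraicFunctions

open Polynomial Filter

/-- the word of the `k` digits in base `b` of `y` which follow the first `n` digits after the point,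
read as an integer between `0` and `b ^ k - 1` -/
noncomputable def word (b k n : ℕ) (y : ℝ) : ℕ :=
  ⌊(b : ℝ) ^ k * Int.fract ((b : ℝ) ^ n * y)⌋₊

/-- in every base `2 ≤ b ≤ B` the number of occurrences of every `s × k` digit matrix, `1 ≤ k ≤ w`
(row `j` is the word `D j` of `y j`), at the `N` places `p, …, p + N - 1`, for every window with
`p + N ≤ L`, differs from `N / b ^ (k s)` by at most `ε N + E` -/
def NormalIn {s : ℕ} (B w : ℕ) (L ε E : ℝ) (y : Fin s → ℝ) : Prop :=
  ∀ (b k p N : ℕ) (D : Fin s → ℕ), 2 ≤ b → b ≤ B → 1 ≤ k → k ≤ w → (∀ j, D j < b ^ k) →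
    (p : ℝ) + N ≤ L →
    |(({i : ℕ | i < N ∧ ∀ j, word b k (p + i) (y j) = D j}.ncard : ℕ) : ℝ) -
      N / ((b : ℝ) ^ k) ^ s| ≤ ε * N + E

/-- `f` is a real algebraic function near `+∞`: it is continuous on `(t₀, ∞)` and satisfies there
`F(t, f(t)) = 0` for a polynomial `F ≠ 0` in two variables with integral coefficients -/
def Algebraic (f : ℝ → ℝ) : Prop :=
  ∃ (t₀ : ℝ) (F : Polynomial (Polynomial ℤ)), F ≠ 0 ∧ ContinuousOn f (Set.Ioi t₀) ∧
    ∀ t : ℝ, t₀ < t → (F.map (aeval t : ℤ[X] →ₐ[ℤ] ℝ).toRingHom).eval (f t) = 0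

/-- no nontrivial integral combination of the functions is, for all large arguments, equal to a
polynomial with real coefficients -/
def Independent {r : ℕ} (f : Fin r → ℝ → ℝ) : Prop :=
  ∀ (h : Fin r → ℤ) (P : ℝ[X]), (∀ᶠ t : ℝ in atTop, ∑ j, (h j : ℝ) * f j t = P.eval t) → h = 0

/-- the absolute values of the integers `H i j` and `m i ≥ 1` are at most `V` -/
def Small {r s : ℕ} (V : ℝ) (H : Fin s → Fin r → ℤ) (m : Fin s → ℕ) : Prop :=
  ∀ i, (∀ j, |(H i j : ℝ)| ≤ V) ∧ 1 ≤ m i ∧ (m i : ℝ) ≤ V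

/-- the numbers `(a_i + ∑_j H_ij f_j(n)) / m_i` -/
noncomputable def tup {r s : ℕ} (f : Fin r → ℝ → ℝ) (n : ℕ) (H : Fin s → Fin r → ℤ)
    (a : Fin s → ℤ) (m : Fin s → ℕ) : Fin s → ℝ :=
  fun i => (a i + ∑ j, (H i j : ℝ) * f j n) / m i

/-- linear independence excludes relations between the rows -/
lemma rows {r s : ℕ} {f : Fin r → ℝ → ℝ} {n : ℕ} {H : Fin s → Fin r → ℤ} {a : Fin s → ℤ}
    {m : Fin s → ℕ} (hm : ∀ i, 1 ≤ m i)
    (h : LinearIndependent ℚ (Fin.cons (1 : ℝ) (tup f n H a m) : Fin (s + 1) → ℝ))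
    (c : Fin s → ℤ) (hc : c ≠ 0) : (fun j => ∑ i, c i * H i j) ≠ 0 := by
  intro h0
  have hm0 : ∀ j, (m j : ℝ) ≠ 0 := fun j => by exact_mod_cast (by have := hm j; omega : m j ≠ 0)
  rw [Fintype.linearIndependent_iff] at h
  have h1 : ∑ i, (c i : ℝ) * ∑ j, (H i j : ℝ) * f j n = 0 := by
    have e1 : ∑ i, (c i : ℝ) * ∑ j, (H i j : ℝ) * f j n =
        ∑ j, (((∑ i, c i * H i j : ℤ)) : ℝ) * f j n := by
      push_cast
      simp only [Finset.sum_mul, Finset.mul_sum]
      rw [Finset.sum_comm]
      refine Finset.sum_congr rfl fun i _ => Finset.sum_congr rfl fun j _ => ?_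
      ring
    rw [e1]
    refine Finset.sum_eq_zero fun j _ => ?_
    have := congrFun h0 j
    simp only [Pi.zero_apply] at this
    rw [this]
    simp
  have h3 := h (Fin.cons (-((∑ i, c i * a i : ℤ) : ℚ)) (fun j => (c j : ℚ) * m j)) (by
    rw [Fin.sum_univ_succ]
    simp only [Fin.cons_zero, Fin.cons_succ, Rat.smul_def]
    have h4 : ∀ i, (((c i : ℚ) * (m i : ℚ) : ℚ) : ℝ) * tup f n H a m i =
        (c i : ℝ) * (a i : ℝ) + (c i : ℝ) * ∑ j, (H i j : ℝ) * f j n := by
      intro i
      unfold tup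
      have := hm0 i
      push_cast
      field_simp
    simp only [h4]
    rw [Finset.sum_add_distrib, h1]
    push_cast
    ring)
  apply hc
  funext j
  have h4 := h3 j.succ
  rw [Fin.cons_succ] at h4
  have h5 : (m j : ℚ) ≠ 0 := by exact_mod_cast (by have := hm j; omega : m j ≠ 0)
  have h6 : (c j : ℚ) = 0 := (mul_eq_zero.1 h4).resolve_right h5
  exact_mod_cast h6

/-- Let `f₁, …, f_r` be real algebraic functions near `+∞` with `Independent f`, and let `η > 0`. There is
`A > 0` such that for all `s ≥ 1`, `δ, β > 0` with `2 δ + β < 1`, `B`, `w`, `ε > 0`, all large `u` and all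
`u ^ η ≤ l ≤ u`: for all integers `n` in `(u, u + l]` with at most `exp (-(log u) ^ β) l` exceptions, every
tuple `y_i = (a_i + ∑_j H_ij f_j(n)) / m_i` with arbitrary integers `a_i` and
`Small (exp ((log u) ^ β)) H m`, such that `1, y₁, …, y_s` are linearly independent over `ℚ`, satisfies
`NormalIn B w ((log u) ^ (1 + δ)) ε (A log u) y`. -/
theorem result {r : ℕ} (f : Fin r → ℝ → ℝ) (hf : ∀ j, Algebraic (f j)) (hind : Independent f)
    (η : ℝ) (hη : 0 < η) : ∃ A : ℝ, 0 < A ∧ ∀ (s : ℕ), 1 ≤ s → ∀ δ β : ℝ, 0 < δ → 0 < β →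
    2 * δ + β < 1 → ∀ (B w : ℕ) (ε : ℝ), 0 < ε → ∃ u₀ : ℕ, ∀ u l : ℕ, u₀ ≤ u →
    (u : ℝ) ^ η ≤ l → l ≤ u →
    (({n : ℕ | u < n ∧ n ≤ u + l ∧ ¬ ∀ (H : Fin s → Fin r → ℤ) (a : Fin s → ℤ) (m : Fin s → ℕ),
      Small (Real.exp ((Real.log u) ^ β)) H m →
      LinearIndependent ℚ (Fin.cons (1 : ℝ) (tup f n H a m) : Fin (s + 1) → ℝ) →
      NormalIn B w ((Real.log u) ^ (1 + δ)) ε (A * Real.log u) (tup f n H a m)}.ncard : ℕ) : ℝ) ≤
      Real.exp (-(Real.log u) ^ β) * l := by
  classical
  have hf' : ∀ j, Pool.Agent.J6H93.Fam.AlgFun (f j) := by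
    intro j
    obtain ⟨t₀, F, hF, hcont, heq⟩ := hf j
    refine ⟨t₀, F.natDegree, F.coeff, hcont,
      ⟨F.natDegree, le_rfl, leadingCoeff_ne_zero.2 hF⟩, fun t ht => ?_⟩
    have h1 := heq t ht
    rw [eval_map, eval₂_eq_sum_range] at h1
    exact h1
  have hind' : Pool.Agent.J6H93.Fam.IndepP f := fun h hh P hP => hh (hind h P hP)
  obtain ⟨A, hA, hmain⟩ := Pool.Agent.J6H93.Fam.alg_short hf' hind' η hη
  refine ⟨A, hA, fun s hs δ β hδ hβ hδβ B w ε hε => ?_⟩
  obtain ⟨u₀, hu₀⟩ := hmain s hs δ β hδ hβ hδβ B w ε hε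
  refine ⟨max u₀ 1, fun u l hu hl1 hl2 => ?_⟩
  rw [mul_comm (Real.exp _) (l : ℝ)]
  refine le_trans ?_ (hu₀ u (le_of_max_le_left hu) l hl1 hl2)
  obtain ⟨V, hV⟩ : ∃ V : ℝ, V = Real.exp ((Real.log u) ^ β) := ⟨_, rfl⟩
  rw [← hV]
  have hV1 : 1 ≤ V := by
    rw [hV]
    exact Real.one_le_exp (Real.rpow_nonneg (Real.log_natCast_nonneg u) _)
  rw [← Set.ncard_coe_finset]
  refine Nat.cast_le.2 (Set.ncard_le_ncard ?_ (Finset.finite_toSet _))
  rintro n ⟨hn1, hn2, hn3⟩
  rw [Finset.mem_coe, Finset.mem_filter, Finset.mem_Ioc]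
  refine ⟨⟨hn1, hn2⟩, fun hcon => hn3 ?_⟩
  intro H a m hS hlin b k p N W hb hbB hk hkw hW hpN
  have hm1 : ∀ i, 1 ≤ m i := fun i => (hS i).2.1
  have hm0 : ∀ j, (m j : ℝ) ≠ 0 := fun j => by exact_mod_cast (by have := hm1 j; omega : m j ≠ 0)
  -- the reduced integers
  have hsml : Pool.Agent.J6H93.Fam.SmlU 0 V H (fun i => Polynomial.C (a i % (m i : ℤ))) m := by
    refine ⟨fun i j => (hS i).1 j, fun i => by rw [natDegree_C], fun i k => ?_, hm1,
      fun i => (hS i).2.2, fun c hc => rows hm1 hlin c hc⟩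
    rw [coeff_C]
    split_ifs with hk
    · have hpos : (0 : ℤ) < (m i : ℤ) := by exact_mod_cast hm1 i
      have h1 := Int.emod_nonneg (a i) hpos.ne'
      have h2 := Int.emod_lt_of_pos (a i) hpos
      have h3 : (0 : ℝ) ≤ ((a i % (m i : ℤ) : ℤ) : ℝ) := by exact_mod_cast h1
      have h4 : ((a i % (m i : ℤ) : ℤ) : ℝ) ≤ (m i : ℝ) := by exact_mod_cast h2.le
      rw [abs_of_nonneg h3]
      exact h4.trans (hS i).2.2
    · rw [Int.cast_zero, abs_zero]
      linarith
  have key := hcon b H (fun i => Polynomial.C (a i % (m i : ℤ))) m hb hbB hsml k p N W hk hkw hW hpN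
  have h7 : {i : ℕ | i < N ∧ ∀ j, word b k (p + i) (tup f n H a m j) = W j} =
      (((Finset.range N).filter (fun i => ∀ j, Pool.Agent.Y933.KD.wd b k (p + i)
        ((∑ j', (H j j' : ℝ) * f j' n + aeval (n : ℝ) (Polynomial.C (a j % (m j : ℤ)))) / m j) =
          W j) : Finset ℕ) : Set ℕ) := by
    ext i
    simp only [Set.mem_ofPred_eq, Finset.coe_filter, Finset.mem_range]
    refine and_congr_right fun _ => forall_congr' fun j => ?_
    have e1 : tup f n H a m j = (∑ j', (H j j' : ℝ) * f j' n +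
        aeval (n : ℝ) (Polynomial.C (a j % (m j : ℤ)))) / m j + ((a j / (m j : ℤ) : ℤ) : ℝ) := by
      unfold tup
      rw [aeval_C]
      have h8 : (a j : ℝ) = ((a j % (m j : ℤ) : ℤ) : ℝ) + (m j : ℝ) * ((a j / (m j : ℤ) : ℤ) : ℝ) := by
        have := Int.emod_add_mul_ediv (a j) (m j : ℤ)
        exact_mod_cast this.symm
      have h9 : (algebraMap ℤ ℝ) (a j % (m j : ℤ)) = ((a j % (m j : ℤ) : ℤ) : ℝ) := rfl
      rw [h9]
      nth_rw 1 [h8]
      have := hm0 j
      field_simp
      ring
    have e2 : word b k (p + i) (tup f n H a m j) = Pool.Agent.Y933.KD.wd b k (p + i)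
        ((∑ j', (H j j' : ℝ) * f j' n + aeval (n : ℝ) (Polynomial.C (a j % (m j : ℤ)))) / m j) := by
      rw [e1]
      unfold word Pool.Agent.Y933.KD.wd
      congr 2
      have h8 : (b : ℝ) ^ (p + i) * ((∑ j', (H j j' : ℝ) * f j' n +
          aeval (n : ℝ) (Polynomial.C (a j % (m j : ℤ)))) / m j + ((a j / (m j : ℤ) : ℤ) : ℝ)) =
          (b : ℝ) ^ (p + i) * ((∑ j', (H j j' : ℝ) * f j' n +
          aeval (n : ℝ) (Polynomial.C (a j % (m j : ℤ)))) / m j) +
          (((b : ℤ) ^ (p + i) * (a j / (m j : ℤ)) : ℤ) : ℝ) := by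
        push_cast
        ring
      rw [h8, Int.fract_add_intCast]
    rw [e2]
  rw [h7, Set.ncard_coe_finset]
  convert key using 5

end Pool.Agent.Results.MP_c8ecb2_nt.ValuesOfAlgebraicFunctions
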